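import Pool.Agent.H87.AQ.Targets
import Pool.Agent.H19.AMX.P3

/-!
# Alperin–McKay, residue dichotomy: module Q1 (normal subgroups of prime index)
-/

open scoped Classical ComplexConjugate

namespace AMq

open AMx

namespace Cy

variable {q : ℕ} {X K : Type} [Group X] [Group K] (F : Cy q X K)

theorem p_io (k : K) : F.p (F.io k) = 1 := (F.ker _).2 ⟨k, rfl⟩

theorem s_pow_conj (c : ℕ) : ∀ k : K, F.s ^ c * F.io k * (F.s ^ c)⁻¹ = F.io ((F.sg ^ c) k) := by
  induction c with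
  | zero => intro k; simp
  | succ c ih =>
    intro k
    have h : F.s ^ (c + 1) * F.io k * (F.s ^ (c + 1))⁻¹ =
        F.s ^ c * (F.s * F.io k * F.s⁻¹) * (F.s ^ c)⁻¹ := by
      rw [pow_succ]; group
    rw [h, F.cj, ih, pow_succ]
    rfl

theorem p_s_pow (c : ℕ) : F.p (F.s ^ c) = Multiplicative.ofAdd (c : ZMod q) := by
  rw [map_pow, F.ps, ← ofAdd_nsmul]
  simp

theorem decomp [NeZero q] (x : X) : ∃ c : ℕ, c < q ∧ ∃ k, x = F.s ^ c * F.io k := by
  refine ⟨(Multiplicative.toAdd (F.p x)).val, ZMod.val_lt _, ?_⟩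
  have h : F.p ((F.s ^ (Multiplicative.toAdd (F.p x)).val)⁻¹ * x) = 1 := by
    rw [map_mul, map_inv, p_s_pow, ZMod.natCast_zmod_val]
    simp
  obtain ⟨k, hk⟩ := (F.ker _).1 h
  exact ⟨k, by rw [hk]; group⟩

theorem p_surj [NeZero q] : Function.Surjective F.p := by
  intro y
  refine ⟨F.s ^ (Multiplicative.toAdd y).val, ?_⟩
  rw [p_s_pow, ZMod.natCast_zmod_val]
  rfl

include F in
theorem card_eq [NeZero q] : Nat.card X = q * Nat.card K := by
  have h1 : F.p.ker.index = q := by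
    rw [Subgroup.index_ker, MonoidHom.range_eq_top.2 F.p_surj, Subgroup.card_top]
    simp
  have h2 : F.p.ker = F.io.range := by
    ext x
    rw [MonoidHom.mem_ker, F.ker]
    rfl
  have h3 : Nat.card F.io.range = Nat.card K :=
    Nat.card_congr (MonoidHom.ofInjective F.inj).toEquiv.symm
  have h4 := Subgroup.index_mul_card F.p.ker
  rw [h1, h2, h3] at h4
  exact h4.symm

/-- `sg ^ q` is inner -/
theorem sg_pow_q : ∃ k₀ : K, ∀ k, (F.sg ^ q) k = k₀ * k * k₀⁻¹ := by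
  have h : F.p (F.s ^ q) = 1 := by
    rw [p_s_pow]; simp
  obtain ⟨k₀, hk₀⟩ := (F.ker _).1 h
  refine ⟨k₀, fun k => F.inj ?_⟩
  rw [← s_pow_conj, ← hk₀]
  simp

theorem cf_sg_q {θ : K → ℂ} (hθ : CF θ) (k : K) : θ ((F.sg ^ q) k) = θ k := by
  obtain ⟨k₀, hk₀⟩ := F.sg_pow_q
  rw [hk₀, hθ]

/-- powers of `sg` fixing `θ` -/
theorem iter {θ : K → ℂ} {d : ℕ} (h : ∀ k, θ ((F.sg ^ d) k) = θ k) (n : ℕ) :
    ∀ k, θ ((F.sg ^ (d * n)) k) = θ k := by
  induction n with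
  | zero => intro k; simp
  | succ n ih =>
    intro k
    have e : F.sg ^ (d * (n + 1)) = F.sg ^ d * F.sg ^ (d * n) := by
      rw [← pow_add]; congr 1; ring
    rw [e]
    show θ ((F.sg ^ d) ((F.sg ^ (d * n)) k)) = θ k
    rw [h, ih]

theorem inv_of_pow (hq : q.Prime) {θ : K → ℂ} (hθ : CF θ) {d : ℕ} (hd0 : 0 < d) (hd : d < q)
    (h : ∀ k, θ ((F.sg ^ d) k) = θ k) : F.Inv θ := by
  have hcop : Nat.Coprime d q :=
    ((Nat.Prime.coprime_iff_not_dvd hq).2 (fun h => absurd (Nat.le_of_dvd hd0 h) (by omega))).symm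
  obtain ⟨m, hm⟩ := Nat.exists_mul_mod_eq_one_of_coprime hcop hq.one_lt
  have h1 := F.iter h m
  have h2 := F.iter (F.cf_sg_q hθ) (d * m / q)
  intro k
  have e : d * m = q * (d * m / q) + 1 := by
    conv_lhs => rw [← Nat.div_add_mod (d * m) q, hm.2]
  have h3 : F.sg ^ (d * m) = F.sg ^ (q * (d * m / q)) * F.sg := by
    conv_lhs => rw [e, pow_succ]
  have h4 := h1 k
  rw [h3] at h4
  have h5 := h2 (F.sg k)
  rw [← h5]
  exact h4

theorem distinct (hq : q.Prime) {θ : K → ℂ} (hθ : CF θ) (hinv : ¬ F.Inv θ) {c c' : ℕ}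
    (hc : c < q) (hc' : c' < q)
    (h : ∀ k, θ ((F.sg ^ c) k) = θ ((F.sg ^ c') k)) : c = c' := by
  by_contra hne
  wlog hlt : c < c' generalizing c c'
  · exact this hc' hc (fun k => (h k).symm) (Ne.symm hne) (by omega)
  apply hinv
  refine F.inv_of_pow hq hθ (d := c' - c) (by omega) (by omega) (fun k => ?_)
  have e : F.sg ^ c' = F.sg ^ (c' - c) * F.sg ^ c := by
    rw [← pow_add]; congr 1; omega
  have h1 := h ((F.sg ^ c)⁻¹ k)
  rw [e] at h1
  have h2 : (F.sg ^ c) ((F.sg ^ c)⁻¹ k) = k := MulEquiv.apply_symm_apply (F.sg ^ c) k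
  have h3 : (F.sg ^ (c' - c) * F.sg ^ c) ((F.sg ^ c)⁻¹ k) =
    (F.sg ^ (c' - c)) ((F.sg ^ c) ((F.sg ^ c)⁻¹ k)) := rfl
  rw [h3, h2] at h1
  exact h1.symm

section Fin

variable [Fintype K]

theorem ind_io (θ : K → ℂ) (k : K) :
    F.ind θ (F.io k) = ∑ c ∈ Finset.range q, θ ((F.sg ^ c) k) := by
  unfold ind
  rw [Finset.sum_eq_single k]
  · simp
  · intro b _ hb
    rw [if_neg]
    exact fun h => hb (F.inj h)
  · intro h; exact absurd (Finset.mem_univ k) h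

theorem ind_off (θ : K → ℂ) (x : X) (hx : F.p x ≠ 1) : F.ind θ x = 0 := by
  unfold ind
  refine Finset.sum_eq_zero (fun k _ => ?_)
  rw [if_neg]
  rintro rfl
  exact hx (F.p_io k)

theorem ind_one (θ : K → ℂ) : F.ind θ 1 = q * θ 1 := by
  have h := F.ind_io θ 1
  rw [map_one] at h
  rw [h]
  simp

theorem ind_sg {θ : K → ℂ} (hθ : CF θ) (k : K) :
    F.ind θ (F.io (F.sg k)) = F.ind θ (F.io k) := by
  rw [ind_io, ind_io]
  have h1 : ∀ c : ℕ, θ ((F.sg ^ c) (F.sg k)) = θ ((F.sg ^ (c + 1)) k) := by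
    intro c; rw [pow_succ]; rfl
  rw [Finset.sum_congr rfl (fun c _ => h1 c)]
  have h2 := Finset.sum_range_succ (fun c => θ ((F.sg ^ c) k)) q
  have h3 := Finset.sum_range_succ' (fun c => θ ((F.sg ^ c) k)) q
  rw [h2] at h3
  have h4 : θ ((F.sg ^ q) k) = θ ((F.sg ^ 0) k) := by
    rw [F.cf_sg_q hθ]; simp
  rw [h4] at h3
  exact (add_right_cancel h3).symm

theorem ind_sg_pow {θ : K → ℂ} (hθ : CF θ) (c : ℕ) : ∀ k : K,
    F.ind θ (F.io ((F.sg ^ c) k)) = F.ind θ (F.io k) := by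
  induction c with
  | zero => intro k; simp
  | succ c ih =>
    intro k
    have e : (F.sg ^ (c + 1)) k = F.sg ((F.sg ^ c) k) := by
      rw [pow_succ']; rfl
    rw [e, F.ind_sg hθ, ih]

theorem ind_conj {θ : K → ℂ} (hθ : CF θ) (h k : K) :
    F.ind θ (F.io (h * k * h⁻¹)) = F.ind θ (F.io k) := by
  rw [ind_io, ind_io]
  refine Finset.sum_congr rfl (fun c _ => ?_)
  rw [map_mul, map_mul, map_inv, hθ]

theorem ind_cf [NeZero q] {θ : K → ℂ} (hθ : CF θ) : CF (F.ind θ) := by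
  intro g x
  by_cases hx : F.p x = 1
  · obtain ⟨k, rfl⟩ := (F.ker _).1 hx
    obtain ⟨c, -, h, rfl⟩ := F.decomp g
    have e : F.s ^ c * F.io h * F.io k * (F.s ^ c * F.io h)⁻¹ =
        F.io ((F.sg ^ c) (h * k * h⁻¹)) := by
      rw [← s_pow_conj, map_mul, map_mul, map_inv]; group
    rw [e, F.ind_sg_pow hθ, F.ind_conj hθ]
  · rw [F.ind_off θ x hx, F.ind_off]
    rw [map_mul, map_mul, mul_comm (F.p g), mul_assoc, map_inv, mul_inv_cancel, mul_one]
    exact hx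

omit [Fintype K] in
theorem a_sg {a : X → ℂ} (ha : CF a) (c : ℕ) (k : K) :
    a (F.io ((F.sg ^ c) k)) = a (F.io k) := by
  rw [← s_pow_conj, ha]

theorem frob [Fintype X] {a : X → ℂ} (ha : CF a) (θ : K → ℂ) :
    ∑ x, a x * F.ind θ x = q * ∑ k, a (F.io k) * θ k := by
  have h1 : ∀ x, a x * F.ind θ x = ∑ k : K, if F.io k = x then
      a (F.io k) * ∑ c ∈ Finset.range q, θ ((F.sg ^ c) k) else 0 := by
    intro x
    unfold ind
    rw [Finset.mul_sum]
    refine Finset.sum_congr rfl (fun k _ => ?_)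
    split_ifs with h
    · rw [h]
    · rw [mul_zero]
  rw [Finset.sum_congr rfl (fun x _ => h1 x), Finset.sum_comm]
  have h2 : ∀ k : K, (∑ x : X, if F.io k = x then
      a (F.io k) * ∑ c ∈ Finset.range q, θ ((F.sg ^ c) k) else 0) =
      ∑ c ∈ Finset.range q, a (F.io ((F.sg ^ c) k)) * θ ((F.sg ^ c) k) := by
    intro k
    rw [Finset.sum_ite_eq, if_pos (Finset.mem_univ _), Finset.mul_sum]
    refine Finset.sum_congr rfl (fun c _ => ?_)
    rw [F.a_sg ha]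
  rw [Finset.sum_congr rfl (fun k _ => h2 k), Finset.sum_comm]
  have h3 : ∀ c ∈ Finset.range q, (∑ k : K, a (F.io ((F.sg ^ c) k)) * θ ((F.sg ^ c) k)) =
      ∑ k, a (F.io k) * θ k := fun c _ =>
    Equiv.sum_comp (F.sg ^ c).toEquiv (fun k => a (F.io k) * θ k)
  rw [Finset.sum_congr rfl h3, Finset.sum_const, Finset.card_range, nsmul_eq_mul]

theorem conj_ind (θ : K → ℂ) (x : X) : conj (F.ind θ x) = F.ind (fun k => conj (θ k)) x := by
  unfold ind
  rw [map_sum]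
  refine Finset.sum_congr rfl (fun k _ => ?_)
  split_ifs with h
  · rw [map_sum]
  · simp

theorem frob_conj [Fintype X] {a : X → ℂ} (ha : CF a) (θ : K → ℂ) :
    ∑ x, a x * conj (F.ind θ x) = q * ∑ k, a (F.io k) * conj (θ k) := by
  rw [← F.frob ha]
  exact Finset.sum_congr rfl (fun x _ => by rw [conj_ind])

end Fin

end Cy

theorem q1 (hC1 : T_C1) (hC2 : T_C2) : T_Q1 := by
  intro q hq X K _ _ _ _ F
  have : NeZero q := ⟨hq.out.ne_zero⟩
  refine ⟨F.card_eq, F.decomp, fun θ hθ => ⟨?_, ?_⟩, fun θ hθ hinv c c' hc hc' h => ?_,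
    fun θ hθ => F.ind_cf hθ, F.ind_one, F.ind_io, F.ind_off, fun a ha θ => F.frob ha θ,
    fun a ha θ => F.frob_conj ha θ⟩
  · exact HP.irr_equiv F.sg hC1 hC2 θ hθ _ (fun _ => rfl)
  · exact F.cf_sg_q (hC1 K θ hθ).1.cf
  · exact F.distinct hq.out (hC1 K θ hθ).1.cf hinv hc hc' h

end AMq

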