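import Pool.Agent.H54.AQ.Q1
import Pool.Agent.H3.AM.A1
import Pool.Agent.H73.AM.C1

/-!
# Alperin–McKay, residue dichotomy: module Q3 (extensions of invariant characters)
-/

open scoped Classical ComplexConjugate

namespace AMq

open AMx

namespace Cy

variable {q : ℕ} {X K : Type} [Group X] [Group K] (F : Cy q X K)

theorem inv_pow {θ : K → ℂ} (h : F.Inv θ) (c : ℕ) : ∀ k, θ ((F.sg ^ c) k) = θ k := by
  induction c with
  | zero => intro k; simp
  | succ c ih =>
    intro k
    rw [pow_succ]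
    show θ ((F.sg ^ c) (F.sg k)) = θ k
    rw [ih, h]

variable [Fintype K] [Fintype X]

theorem conj_symm (f g : X → ℂ) : ∑ x, f x * conj (g x) = conj (∑ x, g x * conj (f x)) := by
  rw [map_sum]
  refine Finset.sum_congr rfl (fun x _ => ?_)
  rw [map_mul, Complex.conj_conj, mul_comm]

/-- decomposition of the induced function -/
theorem ind_decomp [NeZero q] {θ : K → ℂ} (hθ : CF θ) {fs : Finset (X → ℂ)}
    (hcf : ∀ χ ∈ fs, CF χ)
    (hE : ∀ f : X → ℂ, CF f → ∀ x, (Nat.card X : ℂ) * f x =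
      ∑ χ ∈ fs, (∑ g, f g * conj (χ g)) * χ x)
    {m : (X → ℂ) → ℕ} (hm : ∀ χ ∈ fs, ∑ k, χ (F.io k) * conj (θ k) = m χ * (Nat.card K : ℂ))
    (x : X) : F.ind θ x = ∑ χ ∈ fs, (m χ : ℂ) * χ x := by
  have h1 := hE (F.ind θ) (F.ind_cf hθ) x
  have h2 : ∀ χ ∈ fs, (∑ g, F.ind θ g * conj (χ g)) * χ x =
      (Nat.card X : ℂ) * ((m χ : ℂ) * χ x) := by
    intro χ hχ
    rw [conj_symm, F.frob_conj (hcf χ hχ), hm χ hχ, F.card_eq]
    simp only [map_mul, map_natCast]
    push_cast
    ring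
  rw [Finset.sum_congr rfl h2, ← Finset.mul_sum] at h1
  have h3 : (Nat.card X : ℂ) ≠ 0 := by exact_mod_cast Nat.card_pos.ne'
  exact mul_left_cancel₀ h3 h1

theorem ind_norm [NeZero q] {θ : K → ℂ} (hθ : CF θ) {fs : Finset (X → ℂ)}
    (hcf : ∀ χ ∈ fs, CF χ)
    (hE : ∀ f : X → ℂ, CF f → ∀ x, (Nat.card X : ℂ) * f x =
      ∑ χ ∈ fs, (∑ g, f g * conj (χ g)) * χ x)
    {m : (X → ℂ) → ℕ} (hm : ∀ χ ∈ fs, ∑ k, χ (F.io k) * conj (θ k) = m χ * (Nat.card K : ℂ)) :
    ∑ x, F.ind θ x * conj (F.ind θ x) = (Nat.card X : ℂ) * ((∑ χ ∈ fs, m χ ^ 2 : ℕ) : ℂ) := by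
  have h1 : ∀ x, F.ind θ x * conj (F.ind θ x) =
      ∑ χ ∈ fs, (m χ : ℂ) * (χ x * conj (F.ind θ x)) := by
    intro x
    have h2 : ∀ z : ℂ, F.ind θ x * z = ∑ χ ∈ fs, (m χ : ℂ) * (χ x * z) := by
      intro z
      rw [F.ind_decomp hθ hcf hE hm x, Finset.sum_mul]
      exact Finset.sum_congr rfl (fun χ _ => by ring)
    exact h2 _
  rw [Finset.sum_congr rfl (fun x _ => h1 x), Finset.sum_comm]
  rw [Nat.cast_sum, Finset.mul_sum]
  refine Finset.sum_congr rfl (fun χ hχ => ?_)
  rw [← Finset.mul_sum, F.frob_conj (hcf χ hχ), hm χ hχ, F.card_eq]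
  push_cast
  ring

end Cy

/-- Q3 -/
theorem q3 (hE0 : T_E0) (hM1 : T_M1) (hM2 : T_M2) (hQ4 : T_Q4) : T_Q3 := by
  intro q hq X K _ _ _ _ F θ hθ hinv
  have hq' : q.Prime := hq.out
  have : NeZero q := ⟨hq'.ne_zero⟩
  obtain ⟨fs, hfs, hE, -⟩ := hE0 X
  obtain ⟨gs, hgs, hEK, -⟩ := hE0 K
  have hcf : ∀ χ ∈ fs, CF χ := fun χ hχ => (AMx.C1 X χ ((hfs χ).1 hχ)).1.cf
  have hcfθ : CF θ := (AMx.C1 K θ hθ).1.cf
  have hmul : ∀ χ : X → ℂ, ∃ m : ℕ, χ ∈ Irr X →
      ∑ k, χ (F.io k) * conj (θ k) = m * (Nat.card K : ℂ) := by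
    intro χ
    by_cases h : χ ∈ Irr X
    · obtain ⟨m, hm⟩ := hM1 X K F.io χ h θ hθ
      exact ⟨m, fun _ => hm⟩
    · exact ⟨0, fun h' => absurd h' h⟩
  choose m hm using hmul
  have hm' : ∀ χ ∈ fs, ∑ k, χ (F.io k) * conj (θ k) = m χ * (Nat.card K : ℂ) :=
    fun χ hχ => hm χ ((hfs χ).1 hχ)
  have hK0 : (Nat.card K : ℂ) ≠ 0 := by exact_mod_cast Nat.card_pos.ne'
  have hX0 : (Nat.card X : ℂ) ≠ 0 := by exact_mod_cast Nat.card_pos.ne'
  have hθn : ∑ k, θ k * conj (θ k) = (Nat.card K : ℂ) := by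
    have h := AMc.t_A1 K θ θ hθ hθ
    rwa [if_pos rfl] at h
  have hover : ∀ χ ∈ Irr X, (F.Ov χ θ ↔ m χ ≠ 0) := by
    intro χ hχ
    unfold Cy.Ov
    rw [hm χ hχ]
    constructor
    · intro h h0
      rw [h0] at h
      simp at h
    · intro h h0
      rcases mul_eq_zero.1 h0 with h1 | h1
      · exact h (by exact_mod_cast h1)
      · exact hK0 h1
  -- the sum of the squares of the multiplicities
  have hsq : ∑ χ ∈ fs, m χ ^ 2 = q := by
    have h1 := F.ind_norm hcfθ hcf hE hm'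
    rw [F.frob_conj (F.ind_cf hcfθ)] at h1
    have h2 : ∀ k, F.ind θ (F.io k) * conj (θ k) = (q : ℂ) * (θ k * conj (θ k)) := by
      intro k
      rw [F.ind_io, Finset.sum_congr rfl (fun c _ => F.inv_pow hinv c k)]
      simp only [Finset.sum_const, Finset.card_range, nsmul_eq_mul]
      ring
    rw [Finset.sum_congr rfl (fun k _ => h2 k), ← Finset.mul_sum, hθn] at h1
    have h3 : (Nat.card X : ℂ) = (q : ℂ) * (Nat.card K : ℂ) := by
      rw [F.card_eq]; push_cast; ring
    have h4 : (Nat.card X : ℂ) * (q : ℂ) = (Nat.card X : ℂ) * ((∑ χ ∈ fs, m χ ^ 2 : ℕ) : ℂ) := by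
      rw [← h1, h3]; ring
    have h5 := mul_left_cancel₀ hX0 h4
    exact_mod_cast h5.symm
  -- restriction of a character over `θ`
  have hres : ∀ χ ∈ Irr X, F.Ov χ θ → ∀ k, χ (F.io k) = m χ * θ k := by
    intro χ hχ hov k
    have hc : CF (fun k => χ (F.io k)) := by
      intro g x
      show χ (F.io (g * x * g⁻¹)) = χ (F.io x)
      rw [map_mul, map_mul, map_inv]
      exact (AMx.C1 X χ hχ).1.cf _ _
    have h1 := hEK (fun k => χ (F.io k)) hc k
    have hθgs : θ ∈ gs := (hgs θ).2 hθ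
    rw [Finset.sum_eq_single_of_mem θ hθgs, hm χ hχ] at h1
    · have h2 : (Nat.card K : ℂ) * χ (F.io k) = (Nat.card K : ℂ) * (m χ * θ k) := by
        rw [show (Nat.card K : ℂ) * χ (F.io k) = m χ * (Nat.card K : ℂ) * θ k from h1]; ring
      exact mul_left_cancel₀ hK0 h2
    · intro θ' hθ' hne
      have h0 : ∑ g, χ (F.io g) * conj (θ' g) = 0 := by
        by_contra hov'
        apply hne
        obtain ⟨c, -, hc'⟩ := (hQ4 q X K F χ hχ).2.2.1 θ hθ θ' ((hgs θ').1 hθ') hov hov'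
        funext k
        rw [hc', F.inv_pow hinv]
      rw [h0, zero_mul]
  obtain ⟨ζ, hζ1, hζ2, htw⟩ := hM2 q X F.p
  have hord : orderOf ζ = q := orderOf_eq_prime hζ1 hζ2
  -- the multiplicities are `0` or `1`
  have hone : ∀ χ ∈ Irr X, F.Ov χ θ → m χ = 1 := by
    intro χ hχ hov
    set tw : ℕ → X → ℂ := fun c x => ζ ^ (c * (Multiplicative.toAdd (F.p x)).val) * χ x with htwdef
    have htI : ∀ c, tw c ∈ Irr X := fun c => htw χ hχ c
    have htr : ∀ c k, tw c (F.io k) = χ (F.io k) := by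
      intro c k
      rw [htwdef]
      simp only [F.p_io, toAdd_one, ZMod.val_zero, mul_zero, pow_zero, one_mul]
    have htm : ∀ c, m (tw c) = m χ := by
      intro c
      have h1 := hm (tw c) (htI c)
      rw [Finset.sum_congr rfl (fun k _ => by rw [htr c k]), hm χ hχ] at h1
      have h2 := mul_right_cancel₀ hK0 h1
      exact_mod_cast h2.symm
    have hζ0 : ζ ≠ 0 := by
      rintro rfl
      rw [zero_pow hq'.ne_zero] at hζ1
      exact zero_ne_one hζ1
    have hdist : ∀ c c' : ℕ, c < c' → c' < q → tw c ≠ tw c' := by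
      intro c c' hcc hc' he
      have hoff : ∀ x, F.p x ≠ 1 → χ x = 0 := by
        intro x hx
        have h1 : ζ ^ (c * (Multiplicative.toAdd (F.p x)).val) * χ x =
            ζ ^ (c' * (Multiplicative.toAdd (F.p x)).val) * χ x := congrFun he x
        by_contra hne
        have h2 := mul_right_cancel₀ hne h1
        set v := (Multiplicative.toAdd (F.p x)).val with hv
        have hv0 : v ≠ 0 := by
          intro h0
          apply hx
          rw [hv, ZMod.val_eq_zero] at h0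
          exact Multiplicative.toAdd.injective h0
        have hvq : v < q := ZMod.val_lt _
        have h3 : ζ ^ ((c' - c) * v) = 1 := by
          have e : c' * v = c * v + (c' - c) * v := by
            rw [← Nat.add_mul]; congr 1; omega
          rw [e, pow_add] at h2
          have h4 : ζ ^ (c * v) * 1 = ζ ^ (c * v) * ζ ^ ((c' - c) * v) := by
            rw [mul_one]; exact h2
          exact (mul_left_cancel₀ (pow_ne_zero _ hζ0) h4).symm
        have h4 : q ∣ (c' - c) * v := by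
          rw [← hord]; exact orderOf_dvd_of_pow_eq_one h3
        rcases (Nat.Prime.dvd_mul hq').1 h4 with h5 | h5
        · have := Nat.le_of_dvd (by omega) h5; omega
        · have := Nat.le_of_dvd (by omega) h5; omega
      -- the norm of `χ`
      have h1 := AMc.t_A1 X χ χ hχ hχ
      rw [if_pos rfl] at h1
      have h2 : ∑ x, χ x * conj (χ x) = ∑ k, χ (F.io k) * conj (χ (F.io k)) := by
        symm
        refine Finset.sum_of_injOn F.io (F.inj.injOn) (fun _ _ => Finset.mem_univ _) ?_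
          (fun _ _ => rfl)
        intro x _ hx
        rw [hoff x, zero_mul]
        intro hpx
        obtain ⟨k, hk⟩ := (F.ker x).1 hpx
        exact hx ⟨k, Finset.mem_univ _, hk⟩
      have h3 : ∀ k, χ (F.io k) * conj (χ (F.io k)) = (m χ : ℂ) ^ 2 * (θ k * conj (θ k)) := by
        intro k
        rw [hres χ hχ hov k]
        simp only [map_mul, map_natCast]
        ring
      rw [h2, Finset.sum_congr rfl (fun k _ => h3 k), ← Finset.mul_sum, hθn, F.card_eq] at h1
      push_cast at h1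
      have h4 := mul_right_cancel₀ hK0 h1
      have h5 : m χ ^ 2 = q := by exact_mod_cast h4
      rw [← h5] at hq'
      exact Nat.Prime.not_prime_pow (le_refl 2) hq'
    have hinj : Set.InjOn tw (Finset.range q : Set ℕ) := by
      intro c hc c' hc' he
      simp only [Finset.coe_range, Set.mem_Iio] at hc hc'
      rcases lt_trichotomy c c' with h | h | h
      · exact absurd he (hdist c c' h hc')
      · exact h
      · exact absurd he.symm (hdist c' c h hc)
    have hsub : (Finset.range q).image tw ⊆ fs := by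
      intro φ hφ
      obtain ⟨c, -, rfl⟩ := Finset.mem_image.1 hφ
      exact (hfs _).2 (htI c)
    have h6 : ∑ φ ∈ (Finset.range q).image tw, m φ ^ 2 ≤ ∑ φ ∈ fs, m φ ^ 2 :=
      Finset.sum_le_sum_of_subset hsub
    rw [Finset.sum_image hinj, hsq, Finset.sum_congr rfl (fun c _ => by rw [htm c]),
      Finset.sum_const, Finset.card_range, smul_eq_mul] at h6
    have h7 : m χ ^ 2 ≤ 1 := by
      have h8 : q * m χ ^ 2 ≤ q * 1 := by rw [mul_one]; exact h6
      exact Nat.le_of_mul_le_mul_left h8 hq'.pos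
    have h9 : m χ ≠ 0 := (hover χ hχ).1 hov
    have h10 : m χ ≤ 1 := by
      by_contra h
      have h11 : 2 ≤ m χ := by omega
      nlinarith
    omega
  refine ⟨?_, fun χ hχ hov k => by rw [hres χ hχ hov, hone χ hχ hov]; simp⟩
  have hset : {χ | χ ∈ Irr X ∧ F.Ov χ θ} = (fs.filter (fun χ => F.Ov χ θ) : Set (X → ℂ)) := by
    ext χ
    simp only [Set.mem_ofPred_eq, Finset.coe_filter, hfs]
  rw [hset, Set.ncard_coe_finset, Finset.card_filter]
  refine Eq.trans ?_ hsq
  refine Finset.sum_congr rfl (fun χ hχ => ?_)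
  have hχ' := (hfs χ).1 hχ
  split_ifs with h
  · rw [hone χ hχ' h, one_pow]
  · have h0 : m χ = 0 := by
      by_contra h0
      exact h ((hover χ hχ').2 h0)
    rw [h0, zero_pow two_ne_zero]

end AMq

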