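import Pool.Agent.H54.AQ.Q3

/-!
# Alperin–McKay, residue dichotomy: module Q5 (counting)
-/

open scoped Classical ComplexConjugate

namespace AMq

open AMx

namespace Cy

variable {q : ℕ} {X K : Type} [Group X] [Group K] (F : Cy q X K)

theorem not_inv_pow {θ : K → ℂ} (h : ¬ F.Inv θ) (c : ℕ) : ¬ F.Inv (fun k => θ ((F.sg ^ c) k)) := by
  intro h'
  apply h
  intro k
  have h1 := h' ((F.sg ^ c)⁻¹ k)
  have e1 : (F.sg ^ c) ((F.sg ^ c)⁻¹ k) = k := MulEquiv.apply_symm_apply (F.sg ^ c) k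
  have e2 : (F.sg ^ c) (F.sg ((F.sg ^ c)⁻¹ k)) = F.sg ((F.sg ^ c) ((F.sg ^ c)⁻¹ k)) := by
    have e3 : F.sg ^ c * F.sg = F.sg * F.sg ^ c := (pow_mul_comm' F.sg c)
    exact congrArg (fun e : MulAut K => e ((F.sg ^ c)⁻¹ k)) e3
  simp only [] at h1
  rw [e2, e1] at h1
  exact h1

theorem mem_pow {A : Set (K → ℂ)} (hA : ∀ θ ∈ A, θ ∈ Irr K ∧ (fun k => θ (F.sg k)) ∈ A)
    (c : ℕ) : ∀ θ ∈ A, (fun k => θ ((F.sg ^ c) k)) ∈ A := by
  induction c with
  | zero => intro θ hθ; simpa using hθ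
  | succ c ih =>
    intro θ hθ
    have h1 := (hA _ (ih θ hθ)).2
    have e : (fun k => (fun k => θ ((F.sg ^ c) k)) (F.sg k)) =
        (fun k => θ ((F.sg ^ (c + 1)) k)) := by
      funext k
      rw [pow_succ]
      rfl
    rwa [e] at h1

theorem ov_pow [Fintype K] {χ : X → ℂ}
    (h : ∀ θ : K → ℂ, F.Ov χ θ → F.Ov χ (fun k => θ (F.sg k))) (c : ℕ) :
    ∀ θ, F.Ov χ θ → F.Ov χ (fun k => θ ((F.sg ^ c) k)) := by
  induction c with
  | zero => intro θ hθ; simpa using hθ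
  | succ c ih =>
    intro θ hθ
    have h1 := h _ (ih θ hθ)
    have e : (fun k => (fun k => θ ((F.sg ^ c) k)) (F.sg k)) =
        (fun k => θ ((F.sg ^ (c + 1)) k)) := by
      funext k
      rw [pow_succ]
      rfl
    rwa [e] at h1

end Cy

/-- Q5 -/
theorem q5 (hE0 : T_E0) (hQ2 : T_Q2) (hQ3 : T_Q3) (hQ4 : T_Q4) : T_Q5 := by
  intro q hq X K _ _ _ _ F A B hA hB
  have hq' : q.Prime := hq.out
  obtain ⟨fs, hfs, -, -⟩ := hE0 X
  obtain ⟨gs, hgs, -, -⟩ := hE0 K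
  set A' : Finset (K → ℂ) := gs.filter (fun θ => θ ∈ A) with hA'
  set B' : Finset (X → ℂ) := fs.filter (fun χ => χ ∈ B) with hB'
  set I' : Finset (K → ℂ) := A'.filter (fun θ => F.Inv θ) with hI'
  set N' : Finset (K → ℂ) := A'.filter (fun θ => ¬ F.Inv θ) with hN'
  set BI : Finset (X → ℂ) := B'.filter (fun χ => ∃ θ ∈ I', F.Ov χ θ) with hBI
  set BN : Finset (X → ℂ) := B'.filter (fun χ => ¬ ∃ θ ∈ I', F.Ov χ θ) with hBN
  have mA : ∀ θ, θ ∈ A' ↔ θ ∈ A := by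
    intro θ
    rw [hA', Finset.mem_filter, hgs]
    exact ⟨fun h => h.2, fun h => ⟨(hA θ h).1, h⟩⟩
  have mB : ∀ χ, χ ∈ B' ↔ χ ∈ B := by
    intro χ
    rw [hB', Finset.mem_filter, hfs]
    exact ⟨fun h => h.2, fun h => ⟨((hB χ).1 h).1, h⟩⟩
  have mI : ∀ θ, θ ∈ I' ↔ θ ∈ A ∧ F.Inv θ := by
    intro θ; rw [hI', Finset.mem_filter, mA]
  have mN : ∀ θ, θ ∈ N' ↔ θ ∈ A ∧ ¬ F.Inv θ := by
    intro θ; rw [hN', Finset.mem_filter, mA]
  have cA : A.ncard = A'.card := by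
    have : A = (A' : Set (K → ℂ)) := by ext θ; rw [Finset.mem_coe, mA]
    rw [this, Set.ncard_coe_finset]
  have cB : B.ncard = B'.card := by
    have : B = (B' : Set (X → ℂ)) := by ext χ; rw [Finset.mem_coe, mB]
    rw [this, Set.ncard_coe_finset]
  have cI : {θ | θ ∈ A ∧ F.Inv θ}.ncard = I'.card := by
    have : {θ | θ ∈ A ∧ F.Inv θ} = (I' : Set (K → ℂ)) := by
      ext θ; rw [Finset.mem_coe, mI]; rfl
    rw [this, Set.ncard_coe_finset]
  have c1 : I'.card + N'.card = A'.card := Finset.card_filter_add_card_filter_not _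
  have c2 : BI.card + BN.card = B'.card := Finset.card_filter_add_card_filter_not _
  -- characters over invariant ones
  have c3 : BI.card = q * I'.card := by
    have h1 : BI = I'.biUnion (fun θ => fs.filter (fun χ => F.Ov χ θ)) := by
      ext χ
      rw [hBI, Finset.mem_filter, Finset.mem_biUnion]
      constructor
      · rintro ⟨h1, θ, h2, h3⟩
        refine ⟨θ, h2, Finset.mem_filter.2 ⟨?_, h3⟩⟩
        exact (Finset.mem_filter.1 h1).1
      · rintro ⟨θ, h2, h3⟩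
        rw [Finset.mem_filter] at h3
        refine ⟨?_, θ, h2, h3.2⟩
        rw [mB, hB]
        exact ⟨(hfs χ).1 h3.1, θ, ((mI θ).1 h2).1, h3.2⟩
    rw [h1, Finset.card_biUnion]
    · rw [Finset.sum_congr rfl (g := fun _ => q), Finset.sum_const, smul_eq_mul, mul_comm]
      intro θ hθ
      obtain ⟨hθA, hθI⟩ := (mI θ).1 hθ
      have h2 := (hQ3 q X K F θ (hA θ hθA).1 hθI).1
      have h3 : {χ | χ ∈ Irr X ∧ F.Ov χ θ} = (fs.filter (fun χ => F.Ov χ θ) : Set (X → ℂ)) := by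
        ext χ
        simp only [Set.mem_ofPred_eq, Finset.coe_filter, hfs]
      rw [h3, Set.ncard_coe_finset] at h2
      exact h2
    · intro θ hθ θ' hθ' hne
      refine Finset.disjoint_left.2 ?_
      intro χ h4 h5
      rw [Finset.mem_filter] at h4 h5
      obtain ⟨hθA, hθI⟩ := (mI θ).1 hθ
      obtain ⟨hθA', hθI'⟩ := (mI θ').1 hθ'
      apply hne
      obtain ⟨c, -, hc⟩ := (hQ4 q X K F χ ((hfs χ).1 h4.1)).2.2.1 θ (hA θ hθA).1 θ'
        (hA θ' hθA').1 h4.2 h5.2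
      funext k
      rw [hc, F.inv_pow hθI]
  -- the others
  have c4 : N'.card = q * BN.card := by
    have h1 : ∀ θ ∈ N', F.ind θ ∈ BN := by
      intro θ hθ
      obtain ⟨hθA, hθN⟩ := (mN θ).1 hθ
      obtain ⟨h2, h3, h4⟩ := hQ2 q X K F θ (hA θ hθA).1 hθN
      rw [hBN, Finset.mem_filter, mB, hB]
      refine ⟨⟨h2, θ, hθA, h3⟩, ?_⟩
      rintro ⟨θ', hθ', hov⟩
      obtain ⟨hθA', hθI'⟩ := (mI θ').1 hθ'
      obtain ⟨c, -, hc⟩ := (hQ4 q X K F _ h2).2.2.1 θ' (hA θ' hθA').1 θ (hA θ hθA).1 hov h3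
      apply hθN
      have : θ = θ' := by
        funext k
        rw [hc, F.inv_pow hθI']
      rw [this]
      exact hθI'
    rw [Finset.card_eq_sum_card_fiberwise h1, Finset.sum_congr rfl (g := fun _ => q),
      Finset.sum_const, smul_eq_mul, mul_comm]
    intro χ hχ
    rw [hBN, Finset.mem_filter, mB, hB] at hχ
    obtain ⟨⟨hχI, θ₀, hθ₀A, hov₀⟩, hn⟩ := hχ
    have hθ₀N : ¬ F.Inv θ₀ := fun h => hn ⟨θ₀, (mI θ₀).2 ⟨hθ₀A, h⟩, hov₀⟩
    have h5 : N'.filter (fun θ => F.ind θ = χ) =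
        (Finset.range q).image (fun c => (fun k => θ₀ ((F.sg ^ c) k))) := by
      ext θ
      rw [Finset.mem_filter, mN, Finset.mem_image]
      constructor
      · rintro ⟨⟨hθA, hθN⟩, hind⟩
        have h6 := (hQ2 q X K F θ (hA θ hθA).1 hθN).2.1
        rw [hind] at h6
        obtain ⟨c, hc, hc'⟩ := (hQ4 q X K F χ hχI).2.2.1 θ₀ (hA θ₀ hθ₀A).1 θ (hA θ hθA).1 hov₀ h6
        exact ⟨c, Finset.mem_range.2 hc, by funext k; rw [hc']⟩
      · rintro ⟨c, hc, rfl⟩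
        have h7 := F.mem_pow hA c θ₀ hθ₀A
        have h8 := F.not_inv_pow hθ₀N c
        refine ⟨⟨h7, h8⟩, ?_⟩
        have h9 := F.ov_pow (hQ4 q X K F χ hχI).2.1 c θ₀ hov₀
        exact ((hQ2 q X K F _ (hA _ h7).1 h8).2.2 χ hχI h9).symm
    rw [h5, Finset.card_image_of_injOn, Finset.card_range]
    intro c hc c' hc' he
    simp only [Finset.coe_range, Set.mem_Iio] at hc hc'
    exact F.distinct hq' (AMx.C1 K θ₀ (hA θ₀ hθ₀A).1).1.cf hθ₀N hc hc' (fun k => congrFun he k)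
  rw [cA, cB, cI, ← c1, ← c2, c3, c4]
  ring

end AMq

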